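import Pool.Agent.TH933.SPC.Stm

/-! # The plane matrices of level `m²` lie in `P` -/

set_option autoImplicit false

open Matrix

namespace Pool.Agent.TH20.SPC

open Pool.Agent.TH610.CSP Pool.Agent.TH933.SPC

variable {g : ℕ}

/-- the plane matrix -/
def lamM (i : Fin g) (a b c d : ℤ) : MG g :=
  fromBlocks (1 + Matrix.single i i (a - 1)) (Matrix.single i i b)
    (Matrix.single i i c) (1 + Matrix.single i i (d - 1))

theorem lamM_mul (i : Fin g) (a b c d a' b' c' d' : ℤ) :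
    lamM i a b c d * lamM i a' b' c' d' =
      lamM i (a * a' + b * c') (a * b' + b * d') (c * a' + d * c') (c * b' + d * d') := by
  unfold lamM
  rw [fromBlocks_multiply]
  simp only [add_mul, mul_add, one_mul, mul_one, Matrix.single_mul_single_same]
  congr 1
  · rw [show a * a' + b * c' - 1 = (a' - 1) + (a - 1) + (a - 1) * (a' - 1) + b * c' by ring]
    simp only [Matrix.single_add]
    abel
  · rw [show a * b' + b * d' = b' + (a - 1) * b' + (b + b * (d' - 1)) by ring]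
    simp only [Matrix.single_add]
  · rw [show c * a' + d * c' = (c + c * (a' - 1)) + (c' + (d - 1) * c') by ring]
    simp only [Matrix.single_add]
  · rw [show c * b' + d * d' - 1 = c * b' + ((d' - 1) + (d - 1) + (d - 1) * (d' - 1)) by ring]
    simp only [Matrix.single_add]
    abel

theorem lamM_one (i : Fin g) : lamM i 1 0 0 1 = 1 := by
  unfold lamM
  simp

/-- the plane matrix as an invertible matrix -/
def lamU (i : Fin g) (a b c d : ℤ) (h : a * d - b * c = 1) : GG g where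
  val := lamM i a b c d
  inv := lamM i d (-b) (-c) a
  val_inv := by
    rw [lamM_mul, ← lamM_one i]
    congr 1 <;> linarith
  inv_val := by
    rw [lamM_mul, ← lamM_one i]
    congr 1 <;> linarith

theorem isLam_lamU (i : Fin g) (a b c d : ℤ) (h : a * d - b * c = 1) :
    IsLam i a b c d (lamU i a b c d h) := rfl

theorem eq_lamU {i : Fin g} {a b c d : ℤ} (h : a * d - b * c = 1) {A : GG g}
    (hA : IsLam i a b c d A) : A = lamU i a b c d h := Units.ext hA

theorem lamU_mul (i : Fin g) (a b c d a' b' c' d' : ℤ) (h : a * d - b * c = 1)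
    (h' : a' * d' - b' * c' = 1) :
    lamU i a b c d h * lamU i a' b' c' d' h' =
      lamU i (a * a' + b * c') (a * b' + b * d') (c * a' + d * c') (c * b' + d * d')
        (by linear_combination (a' * d' - b' * c') * h + h') :=
  Units.ext (lamM_mul i a b c d a' b' c' d')

theorem lamU_congr (i : Fin g) {a b c d a' b' c' d' : ℤ} (h : a * d - b * c = 1)
    (h' : a' * d' - b' * c' = 1) (ha : a = a') (hb : b = b') (hc : c = c') (hd : d = d') :
    lamU i a b c d h = lamU i a' b' c' d' h' := by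
  subst ha hb hc hd
  rfl

section
variable {P : Subgroup (GG g)} {m : ℕ} (hP : Good P m)
include hP

theorem memU (i : Fin g) (t : ℤ) (ht : (m : ℤ) ∣ t) (h : (1 : ℤ) * 1 - t * 0 = 1) :
    lamU i 1 t 0 1 h ∈ P := by
  obtain ⟨s, rfl⟩ := ht
  refine hP.hU (Matrix.single i i s) (by simp [Matrix.transpose_single]) _ ?_
  show lamM i 1 (m * s) 0 1 = _
  unfold lamM
  simp [Matrix.smul_single]

theorem memL (i : Fin g) (t : ℤ) (ht : (m : ℤ) ∣ t) (h : (1 : ℤ) * 1 - 0 * t = 1) :
    lamU i 1 0 t 1 h ∈ P := by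
  obtain ⟨s, rfl⟩ := ht
  refine hP.hL (Matrix.single i i s) (by simp [Matrix.transpose_single]) _ ?_
  show lamM i 1 0 (m * s) 1 = _
  unfold lamM
  simp [Matrix.smul_single]

/-- multiplication by `(1 0; t 1)` on the right -/
theorem redL (i : Fin g) (a b c d t : ℤ) (h : a * d - b * c = 1) (ht : (m : ℤ) ∣ t)
    (h' : (a + b * t) * d - b * (c + d * t) = 1)
    (hm : lamU i (a + b * t) b (c + d * t) d h' ∈ P) : lamU i a b c d h ∈ P := by
  have h1 := memL hP i t ht (by ring)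
  have h2 : lamU i a b c d h * lamU i 1 0 t 1 (by ring) =
      lamU i (a + b * t) b (c + d * t) d h' := by
    rw [lamU_mul]
    apply lamU_congr <;> ring
  rw [← h2] at hm
  exact (Subgroup.mul_mem_cancel_right P h1).1 hm

/-- multiplication by `(1 t; 0 1)` on the right -/
theorem redU (i : Fin g) (a b c d t : ℤ) (h : a * d - b * c = 1) (ht : (m : ℤ) ∣ t)
    (h' : a * (d + c * t) - (b + a * t) * c = 1)
    (hm : lamU i a (b + a * t) c (d + c * t) h' ∈ P) : lamU i a b c d h ∈ P := by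
  have h1 := memU hP i t ht (by ring)
  have h2 : lamU i a b c d h * lamU i 1 t 0 1 (by ring) =
      lamU i a (b + a * t) c (d + c * t) h' := by
    rw [lamU_mul]
    apply lamU_congr <;> ring
  rw [← h2] at hm
  exact (Subgroup.mul_mem_cancel_right P h1).1 hm

/-- matrices with upper left entry `1` -/
theorem memOne (i : Fin g) (b c d : ℤ) (h : (1 : ℤ) * d - b * c = 1) (hb : (m : ℤ) ∣ b)
    (hc : (m : ℤ) ∣ c) : lamU i 1 b c d h ∈ P := by
  have h1 := memL hP i c hc (by ring)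
  have h2 := memU hP i b hb (by ring)
  have h3 : lamU i 1 b c d h = lamU i 1 0 c 1 (by ring) * lamU i 1 b 0 1 (by ring) := by
    rw [lamU_mul]
    apply lamU_congr
    · ring
    · ring
    · ring
    · linarith
  rw [h3]
  exact P.mul_mem h1 h2

end

theorem isLam_congr {i : Fin g} {a b c d a' b' c' d' : ℤ} {A : GG g} (h : IsLam i a b c d A)
    (ha : a = a') (hb : b = b') (hc : c = c') (hd : d = d') : IsLam i a' b' c' d' A := by
  subst ha hb hc hd
  exact h

/-- the square factor can be moved -/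
theorem square (hS : StSQ) {P : Subgroup (GG g)} {m : ℕ} (hP : Good P m) {i k : Fin g}
    (hik : i ≠ k) (q a b c d : ℤ) (hq : q ≠ 0) (ha : (m : ℤ) ∣ a - 1) (hb : (m : ℤ) ∣ b)
    (hc : (m : ℤ) ∣ c) (hd : (m : ℤ) ∣ d - 1) (h : a * d - q ^ 2 * b * c = 1)
    (h' : a * d - b * (q ^ 2 * c) = 1)
    (hm : lamU i a b (q ^ 2 * c) d h' ∈ P) : lamU i a (q ^ 2 * b) c d h ∈ P := by
  have hB : a * d - (-b) * (-(q ^ 2 * c)) = 1 := by linarith
  have h1 := hS g P m hP i k hik q a b c d hq ha hb hc hd h (lamU i a (q ^ 2 * b) c d h)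
    (lamU k a (-b) (-(q ^ 2 * c)) d hB) (isLam_lamU _ _ _ _ _ _) (isLam_lamU _ _ _ _ _ _)
  have h2 := hS g P m hP i k hik 1 a b (q ^ 2 * c) d one_ne_zero ha hb (Dvd.dvd.mul_left hc _) hd
    (by linarith) (lamU i a b (q ^ 2 * c) d h')
    (lamU k a (-b) (-(q ^ 2 * c)) d hB)
    (isLam_congr (isLam_lamU _ _ _ _ _ _) rfl (by ring) rfl rfl)
    (isLam_congr (isLam_lamU _ _ _ _ _ _) rfl rfl (by ring) rfl)
  have h3 : lamU k a (-b) (-(q ^ 2 * c)) d hB ∈ P := (Subgroup.mul_mem_cancel_left P hm).1 h2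
  exact (Subgroup.mul_mem_cancel_right P h3).1 h1

/-- every integer is `±` a square modulo a prime `p ≡ 3` modulo `4` -/
theorem sq_or_neg_sq (p : ℕ) [Fact p.Prime] (hp : p % 4 = 3) (u : ZMod p) (hu : u ≠ 0) :
    IsSquare u ∨ IsSquare (-u) := by
  have hp2 : p ≠ 2 := by omega
  have hch : ringChar (ZMod p) ≠ 2 := by
    rw [ZMod.ringChar_zmod_n]
    exact hp2
  have hneg : ¬ IsSquare (-1 : ZMod p) := by
    intro h
    exact (ZMod.exists_sq_eq_neg_one_iff.1 h) hp
  by_cases h : IsSquare u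
  · exact Or.inl h
  · right
    have h1 := (quadraticChar_neg_one_iff_not_isSquare (F := ZMod p)).2 h
    have h2 := (quadraticChar_neg_one_iff_not_isSquare (F := ZMod p)).2 hneg
    have h3 : quadraticChar (ZMod p) (-u) = 1 := by
      rw [neg_eq_neg_one_mul, map_mul, h1, h2]
      norm_num
    exact (quadraticChar_one_iff_isSquare (neg_ne_zero.2 hu)).1 h3


theorem exists_eps (p : ℕ) (hp : p.Prime) (hp4 : p % 4 = 3) (m : ℕ) (b : ℤ)
    (hb : ¬ (p : ℤ) ∣ b) (hm : ¬ (p : ℤ) ∣ m) :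
    ∃ e q : ℤ, e ^ 2 = 1 ∧ q ≠ 0 ∧ (p : ℤ) ∣ b - e * m * q ^ 2 := by
  haveI : Fact p.Prime := ⟨hp⟩
  have hm0 : (m : ZMod p) ≠ 0 := by
    intro h
    apply hm
    rw [← ZMod.intCast_zmod_eq_zero_iff_dvd]
    exact_mod_cast h
  have hb0 : (b : ZMod p) ≠ 0 := by
    intro h
    apply hb
    rwa [← ZMod.intCast_zmod_eq_zero_iff_dvd]
  have key : ∃ (e : ℤ) (r : ZMod p), e ^ 2 = 1 ∧ (b : ZMod p) = e * m * r ^ 2 := by
    rcases sq_or_neg_sq p hp4 ((b : ZMod p) / m) (div_ne_zero hb0 hm0) with ⟨r, hr⟩ | ⟨r, hr⟩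
    · refine ⟨1, r, by norm_num, ?_⟩
      have : (b : ZMod p) = (b / m) * m := by field_simp
      rw [this, hr]
      push_cast
      ring
    · refine ⟨-1, r, by norm_num, ?_⟩
      have : (b : ZMod p) = -(-(b / m)) * m := by field_simp
      rw [this, hr]
      push_cast
      ring
  obtain ⟨e, r, he, hr⟩ := key
  have hcast : (((r.val : ℕ) : ℤ) : ZMod p) = r := by
    rw [Int.cast_natCast, ZMod.natCast_zmod_val]
  refine ⟨e, (r.val : ℕ), he, ?_, ?_⟩
  · intro h0
    rw [h0] at hcast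
    rw [← hcast] at hr
    apply hb0
    rw [hr]
    simp
  · rw [← ZMod.intCast_zmod_eq_zero_iff_dvd]
    push_cast
    rw [ZMod.natCast_zmod_val, hr]
    ring

theorem core (hS : StSQ) {P : Subgroup (GG g)} {m : ℕ} (hP : Good P m) {i k : Fin g}
    (hik : i ≠ k) (p : ℕ) (hp : p.Prime) (b c d : ℤ) (ha : (m : ℤ) ^ 2 ∣ -(p : ℤ) - 1)
    (hb : (m : ℤ) ∣ b) (hc : (m : ℤ) ∣ c) (hd : (m : ℤ) ∣ d - 1)
    (h : (-(p : ℤ)) * d - b * c = 1) : lamU i (-(p : ℤ)) b c d h ∈ P := by
  have hmm : (m : ℤ) ∣ (m : ℤ) ^ 2 := dvd_pow_self _ two_ne_zero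
  have hm4 : (4 : ℤ) ∣ m := by exact_mod_cast hP.four
  have hp1 : ¬ (p : ℤ) ∣ 1 := by
    intro h1
    exact hp.one_lt.ne' (by exact_mod_cast Int.eq_one_of_dvd_one (by positivity) h1)
  have hpb : ¬ (p : ℤ) ∣ b := by
    intro h1
    apply hp1
    rw [← h]
    exact dvd_sub (Dvd.dvd.mul_right ((dvd_neg).2 dvd_rfl) _) (Dvd.dvd.mul_right h1 _)
  have hpm : ¬ (p : ℤ) ∣ m := by
    intro h1
    apply hp1
    have h2 : (p : ℤ) ∣ -(p : ℤ) - 1 := (h1.trans hmm).trans ha
    have h3 := dvd_sub ((dvd_neg (a := (p : ℤ)) (b := (p : ℤ))).2 dvd_rfl) h2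
    simpa using h3
  have hp4 : p % 4 = 3 := by
    have h1 : (4 : ℤ) ∣ -(p : ℤ) - 1 := (hm4.trans hmm).trans ha
    omega
  obtain ⟨e, q, he, hq, hpq⟩ := exists_eps p hp hp4 m b hpb hpm
  have hmq : (m : ℤ) ∣ b - e * m * q ^ 2 :=
    dvd_sub hb (Dvd.dvd.mul_right (Dvd.intro_left e rfl) _)
  have hcop : IsCoprime (p : ℤ) m := by
    rw [Nat.isCoprime_iff_coprime]
    exact (Nat.Prime.coprime_iff_not_dvd hp).2 (fun h1 => hpm (by exact_mod_cast h1))
  obtain ⟨s, hs⟩ := hcop.mul_dvd hpq hmq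
  have hd2 : (m : ℤ) ∣ d + c * (m * s) - 1 := by
    have h1 : d + c * (m * s) - 1 = (d - 1) + m * (c * s) := by ring
    rw [h1]
    exact dvd_add hd (Dvd.intro _ rfl)
  have hb2 : b + -(p : ℤ) * (m * s) = q ^ 2 * (e * m) := by linear_combination hs
  have hdet2 : -(p : ℤ) * (d + c * (m * s)) - q ^ 2 * (e * m) * c = 1 := by
    rw [← hb2]
    linear_combination h
  have hdet3 : -(p : ℤ) * (d + c * (m * s)) - (e * m) * (q ^ 2 * c) = 1 := by
    linear_combination hdet2
  refine redU hP i _ b c d (m * s) h (Dvd.intro _ rfl) (by linear_combination h) ?_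
  have hmem : lamU i (-(p : ℤ)) (q ^ 2 * (e * m)) c (d + c * (m * s)) hdet2 ∈ P := by
    refine square hS hP hik q (-(p : ℤ)) (e * m) c (d + c * (m * s)) hq (hmm.trans ha)
      (Dvd.intro_left e rfl) hc hd2 hdet2 hdet3 ?_
    obtain ⟨w, hw⟩ := ha
    have ha1 : -(p : ℤ) + (e * m) * (m * (-e * w)) = 1 := by
      linear_combination hw - (m : ℤ) ^ 2 * w * he
    refine redL hP i _ _ _ _ (m * (-e * w)) hdet3 (Dvd.intro _ rfl)
      (by linear_combination hdet3) ?_
    have hdet4 : (1 : ℤ) * (d + c * (m * s)) - (e * m) *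
        (q ^ 2 * c + (d + c * (m * s)) * (m * (-e * w))) = 1 := by
      linear_combination hdet3 - (d + c * (m * s)) * ha1
    have h4 := memOne hP i (e * m) (q ^ 2 * c + (d + c * (m * s)) * (m * (-e * w)))
      (d + c * (m * s)) hdet4 (Dvd.intro_left e rfl)
      (dvd_add (Dvd.dvd.mul_left hc _)
        (Dvd.dvd.mul_left (Dvd.intro _ rfl) _))
    convert h4 using 1
    exact lamU_congr _ _ _ ha1 rfl rfl rfl
  convert hmem using 1
  exact lamU_congr _ _ _ rfl hb2 rfl rfl

theorem t_sym (h : StSQ) : StSYM := by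
  intro g P m hg hP i a b c d ha hb hc hd hdet A hA
  rw [eq_lamU hdet hA]
  clear hA A
  have hm0 : 0 < m := hP.pos
  have hmZ : (m : ℤ) ≠ 0 := by exact_mod_cast hm0.ne'
  have hm4 : (4 : ℤ) ∣ m := by exact_mod_cast hP.four
  have hmm : (m : ℤ) ∣ (m : ℤ) ^ 2 := dvd_pow_self _ two_ne_zero
  obtain ⟨k, hk⟩ : ∃ k : Fin g, i ≠ k := by
    by_cases h0 : (i : ℕ) = 0
    · exact ⟨⟨1, by omega⟩, fun h => by rw [h] at h0; simp at h0⟩
    · exact ⟨⟨0, by omega⟩, fun h => by rw [h] at h0; simp at h0⟩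
  by_cases hb0 : b = 0
  · subst hb0
    have hd1 : a * d = 1 := by linarith
    have ha1 : a = 1 := by
      rcases Int.mul_eq_one_iff_eq_one_or_neg_one.1 hd1 with h1 | h1
      · exact h1.1
      · exfalso
        rw [h1.1] at ha
        have h2 : (4 : ℤ) ∣ -1 - 1 := (hm4.trans hmm).trans ha
        norm_num at h2
    subst ha1
    exact memOne hP i 0 c d hdet (dvd_zero _) (hmm.trans hc)
  · have hcop1 : IsCoprime a b := ⟨d, -c, by linear_combination hdet⟩
    have hcop2 : IsCoprime a (m : ℤ) := by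
      obtain ⟨s, hs⟩ := ha
      exact ⟨1, -(m * s), by linear_combination hs⟩
    have hcop3 : IsCoprime (-a) ((m * b.natAbs : ℕ) : ℤ) := by
      rw [Nat.cast_mul]
      refine IsCoprime.neg_left (IsCoprime.mul_right hcop2 ?_)
      rcases Int.natAbs_eq b with h1 | h1
      · rw [← h1]
        exact hcop1
      · have h2 : ((b.natAbs : ℕ) : ℤ) = -b := by omega
        rw [h2]
        exact hcop1.neg_right
    obtain ⟨p, -, hp, hpm⟩ := Nat.forall_exists_prime_gt_and_zmodEq 0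
      (Nat.mul_ne_zero hm0.ne' (Int.natAbs_ne_zero.2 hb0)) hcop3
    have hdv : (m : ℤ) * b ∣ -(p : ℤ) - a := by
      have h1 := hpm.dvd
      rw [Nat.cast_mul] at h1
      have h2 : -(p : ℤ) - a = -a - p := by ring
      rw [h2]
      rcases Int.natAbs_eq b with h3 | h3
      · rw [← h3] at h1
        exact h1
      · have h4 : ((b.natAbs : ℕ) : ℤ) = -b := by omega
        rw [h4, mul_neg, neg_dvd] at h1
        exact h1
    obtain ⟨t, ht⟩ := hdv
    have hpa : a + b * (m * t) = -(p : ℤ) := by linear_combination -ht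
    have hdet2 : -(p : ℤ) * d - b * (c + d * (m * t)) = 1 := by
      rw [← hpa]
      linear_combination hdet
    refine redL hP i a b c d (m * t) hdet (Dvd.intro _ rfl) (by linear_combination hdet) ?_
    have hpm2 : (m : ℤ) ^ 2 ∣ -(p : ℤ) - 1 := by
      rw [← hpa]
      have h1 : a + b * (m * t) - 1 = (a - 1) + b * (m * t) := by ring
      rw [h1]
      exact dvd_add ha (Dvd.dvd.mul_right hb _)
    have h4 := core h hP hk p hp b (c + d * (m * t)) d hpm2 (hmm.trans hb)
      (dvd_add (hmm.trans hc) (Dvd.dvd.mul_left (Dvd.intro _ rfl) _)) (hmm.trans hd) hdet2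
    convert h4 using 1
    exact lamU_congr _ _ _ hpa rfl rfl rfl

end Pool.Agent.TH20.SPC
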